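import Pool.Agent.Helper52.NF.St

set_option autoImplicit false

namespace Pool.Agent.Helper58.NF

open Pool.Agent.Helper52.NF Finset

private theorem sum_pt {N : Type} [DecidableEq N] [Fintype N] (ρ : N → N) (a c : N) :
    ∑ u ∈ Finset.univ.filter (fun u => ρ u = c), pt a u = if ρ a = c then 1 else 0 := by
  unfold pt
  rw [Finset.sum_ite_eq']
  simp

theorem hXL : StXL := by
  intro ε N _ _ _ α β E X ρ D hP hD
  have key : ∀ (k : ℕ) (D : N → ZMod 2),
      (Finset.univ.filter (fun u => D u ≠ 0)).card = k →
      (∀ c, ∑ u ∈ Finset.univ.filter (fun u => ρ u = c), D u = 0) →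
      ∃ P ⊆ E, (∀ e ∈ P, β e ∈ X) ∧ ∀ x, bd α β P x = D x := by
    intro k
    induction k using Nat.strong_induction_on with
    | _ k ih =>
      intro D hk hD
      by_cases h0 : ∀ u, D u = 0
      · refine ⟨∅, Finset.empty_subset _, by simp, fun x => ?_⟩
        rw [bd_empty, h0 x]
      · push Not at h0
        obtain ⟨a, ha⟩ := h0
        have ha1 : D a = 1 := zne ha
        obtain ⟨b, hb, hba, hDb⟩ : ∃ b ∈ Finset.univ.filter (fun u => ρ u = ρ a), b ≠ a ∧ D b ≠ 0 := by
          by_contra hcon
          push Not at hcon
          have h1 := Finset.sum_eq_single_of_mem (f := D) a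
            (by simp : a ∈ Finset.univ.filter (fun u => ρ u = ρ a)) hcon
          rw [hD (ρ a), ha1] at h1
          exact absurd h1 (by decide)
        have hb1 : D b = 1 := zne hDb
        have hρ : ρ b = ρ a := by simpa using hb
        let D' : N → ZMod 2 := fun x => D x + (pt a x + pt b x)
        have hD'a : D' a = 0 := by
          change D a + (pt a a + pt b a) = 0
          rw [pt_self, pt_ne (Ne.symm hba), ha1, add_zero, zz]
        have hD'b : D' b = 0 := by
          change D b + (pt a b + pt b b) = 0
          rw [pt_self, pt_ne hba, hb1, zero_add, zz]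
        have hlt : (Finset.univ.filter (fun u => D' u ≠ 0)).card < k := by
          rw [← hk]
          apply Finset.card_lt_card
          rw [Finset.ssubset_iff_of_subset]
          · refine ⟨a, by simpa using ha, by simpa using hD'a⟩
          · intro u hu
            simp only [Finset.mem_filter, Finset.mem_univ, true_and] at hu ⊢
            intro hDu
            by_cases hua : u = a
            · rw [hua] at hDu
              exact ha hDu
            · by_cases hub : u = b
              · rw [hub] at hDu
                exact hDb hDu
              · apply hu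
                change D u + (pt a u + pt b u) = 0
                rw [pt_ne hua, pt_ne hub, hDu, add_zero, add_zero]
        have hD's : ∀ c, ∑ u ∈ Finset.univ.filter (fun u => ρ u = c), D' u = 0 := by
          intro c
          change ∑ u ∈ Finset.univ.filter (fun u => ρ u = c), (D u + (pt a u + pt b u)) = 0
          rw [Finset.sum_add_distrib, Finset.sum_add_distrib, hD c, sum_pt, sum_pt, hρ, zz, add_zero]
        obtain ⟨P', hP'E, hP'X, hP'⟩ := ih _ hlt D' rfl hD's
        obtain ⟨Q, hQE, hQX, hQ⟩ := hP a b hρ.symm
        refine ⟨symmDiff P' Q, ?_, ?_, ?_⟩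
        · intro e he
          rw [Finset.mem_symmDiff] at he
          rcases he with ⟨h1, _⟩ | ⟨h1, _⟩
          · exact hP'E h1
          · exact hQE h1
        · intro e he
          rw [Finset.mem_symmDiff] at he
          rcases he with ⟨h1, _⟩ | ⟨h1, _⟩
          · exact hP'X e h1
          · exact hQX e h1
        · intro x
          rw [bd_symmDiff, hP', hQ]
          change D x + (pt a x + pt b x) + (pt a x + pt b x) = D x
          rw [add_assoc, zz, add_zero]
  exact key _ D rfl hD

end Pool.Agent.Helper58.NF
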